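import Pool.Agent.Run7.h412.MN.Model

set_option autoImplicit false
set_option linter.unusedSectionVars false

/-!
# Evaluation: which orbits are irrelevant for a matching with `k` edges
-/

namespace Run7.h412.MN

open Finset
open Pool.Agent.H119R2.Kp (GP PV)
open Pool.Agent.TH669.KP (sgn bit GR GR_adj sgn_update bit_pos bit_neg bit_congr)
open Pool.Agent.TH669.KC (Cl cls cls_zero cls_of_ne cls_ne_none cls_neg cls_inj cls_surj)

variable {K r q : ℕ}

theorem adj_of_agree {χ χ₂ : Jt K r q → Bool} {u v : Vt K r q}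
    (h : ∀ j, orb u v = some j → χ₂ j = χ j) (huv : (Gt χ).Adj u v) : (Gt χ₂).Adj u v := by
  obtain ⟨j, hj, hχ⟩ := huv
  exact ⟨j, hj, by rw [h j hj]; exact hχ⟩

theorem same_side {χ : Jt K r q → Bool} (h0 : χ (.inl true) = false) {u v : Vt K r q}
    (huv : (Gt χ).Adj u v) : u.isLeft = v.isLeft := by
  obtain ⟨j, hj, hχ⟩ := huv
  have f := form_of_orb hj
  rcases j with b | d | d
  · cases b
    · obtain ⟨i, x, y, hxy, rfl, rfl⟩ := f
      rfl
    · rw [h0] at hχ
      cases hχ
  · obtain ⟨i, k, x, y, hik, rfl, rfl, hd⟩ := f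
    rfl
  · obtain ⟨a, b, rfl, rfl, hd⟩ := f
    rfl

theorem right_orb {u v : Vt K r q} (hu : u.isLeft = false) (hv : v.isLeft = false)
    {j : Jt K r q} (hj : orb u v = some j) : ∃ d, j = .inr (.inr d) := by
  have f := form_of_orb hj
  rcases j with b | d | d
  · cases b
    · obtain ⟨i, x, y, hxy, rfl, rfl⟩ := f
      cases hu
    · rcases f with ⟨a, b, rfl, rfl⟩ | ⟨a, b, rfl, rfl⟩
      · cases hu
      · cases hv
  · obtain ⟨i, k, x, y, hik, rfl, rfl, hd⟩ := f
    cases hu
  · exact ⟨d, rfl⟩

theorem left_orb {u v : Vt K r q} (hu : u.isLeft = true) (hv : v.isLeft = true)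
    {j : Jt K r q} (hj : orb u v = some j) : j = .inl false ∨ ∃ d, j = .inr (.inl d) := by
  have f := form_of_orb hj
  rcases j with b | d | d
  · cases b
    · exact Or.inl rfl
    · rcases f with ⟨a, b, rfl, rfl⟩ | ⟨a, b, rfl, rfl⟩
      · cases hv
      · cases hu
  · exact Or.inr ⟨d, rfl⟩
  · obtain ⟨a, b, rfl, rfl, hd⟩ := f
    cases hu

section card

variable [NeZero K] [NeZero q]

theorem card_left : (univ.filter fun v : Vt K r q => v.isLeft = true).card = 2 * K := by
  have h : (univ.filter fun v : Vt K r q => v.isLeft = true) =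
      (univ : Finset (ZMod K × ZMod 2)).map ⟨Sum.inl, Sum.inl_injective⟩ := by
    ext v
    rcases v with v | v <;> simp
  rw [h, card_map, card_univ, Fintype.card_prod, ZMod.card, ZMod.card, mul_comm]

theorem card_right : (univ.filter fun v : Vt K r q => v.isLeft = false).card = 2 ^ r * q := by
  have h : (univ.filter fun v : Vt K r q => v.isLeft = false) =
      (univ : Finset (Bl r q)).map ⟨Sum.inr, Sum.inr_injective⟩ := by
    ext v
    rcases v with v | v <;> simp
  rw [h, card_map, card_univ, Fintype.card_prod, ZMod.card, Fintype.card_fun, ZMod.card,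
    Fintype.card_fin]

theorem card_all : Fintype.card (Vt K r q) = 2 * K + 2 ^ r * q := by
  rw [Fintype.card_sum, Fintype.card_prod, Fintype.card_prod, ZMod.card, ZMod.card, ZMod.card,
    Fintype.card_fun, ZMod.card, Fintype.card_fin, mul_comm]

/-! ### the join is present -/

theorem join_adj {χ : Jt K r q → Bool} (h1 : χ (.inl true) = true) {u v : Vt K r q}
    (huv : u.isLeft ≠ v.isLeft) : (Gt χ).Adj u v := by
  rcases u with u | u
  · rcases v with v | v
    · exact absurd rfl huv
    · exact ⟨_, rfl, h1⟩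
  · rcases v with v | v
    · exact ⟨_, rfl, h1⟩
    · exact absurd rfl huv

/-- the pairs are irrelevant, if the block is at least as large -/
theorem join_left {χ χ₂ : Jt K r q → Bool} (h1 : χ₂ (.inl true) = true)
    (hag : ∀ j, j ≠ .inl false → χ₂ j = χ j) (hc : 2 * K ≤ 2 ^ r * q) {k : ℕ}
    (h : Mat k (Gt χ)) : Mat k (Gt χ₂) := by
  refine half_two (univ.filter fun v : Vt K r q => v.isLeft = true) ?_ ?_ ?_ h
  · intro x hx y hy
    rw [mem_filter] at hx hy
    refine join_adj h1 ?_
    intro h2
    exact hy ⟨mem_univ _, h2 ▸ hx.2⟩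
  · rw [card_left, card_all]
    omega
  · intro u v huv
    obtain ⟨j, hj, hχ⟩ := huv
    by_cases hji : j = .inl false
    · right
      subst hji
      obtain ⟨i, x, y, hxy, rfl, rfl⟩ := form_of_orb hj
      rw [mem_filter, mem_filter]
      exact ⟨⟨mem_univ _, rfl⟩, ⟨mem_univ _, rfl⟩⟩
    · left
      exact ⟨j, hj, by rw [hag j hji]; exact hχ⟩

/-- the inner differences of the block are irrelevant, if the pairs are at least as many -/
theorem join_right {χ χ₂ : Jt K r q → Bool} (h1 : χ₂ (.inl true) = true) (d0 : Cl (Bl r q))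
    (hag : ∀ j, j ≠ .inr (.inr d0) → χ₂ j = χ j) (hc : 2 ^ r * q ≤ 2 * K) {k : ℕ}
    (h : Mat k (Gt χ)) : Mat k (Gt χ₂) := by
  refine half_two (univ.filter fun v : Vt K r q => v.isLeft = false) ?_ ?_ ?_ h
  · intro x hx y hy
    rw [mem_filter] at hx hy
    refine join_adj h1 ?_
    intro h2
    exact hy ⟨mem_univ _, h2 ▸ hx.2⟩
  · rw [card_right, card_all]
    omega
  · intro u v huv
    obtain ⟨j, hj, hχ⟩ := huv
    by_cases hji : j = .inr (.inr d0)
    · right
      subst hji
      obtain ⟨a, b, rfl, rfl, _⟩ := form_of_orb hj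
      rw [mem_filter, mem_filter]
      exact ⟨⟨mem_univ _, rfl⟩, ⟨mem_univ _, rfl⟩⟩
    · left
      exact ⟨j, hj, by rw [hag j hji]; exact hχ⟩

/-! ### no join -/

/-- different pairs are joined: the pairs are irrelevant -/
theorem blow {χ χ₂ : Jt K r q → Bool} (h0 : χ (.inl true) = false)
    (hag : ∀ j, j ≠ .inl false → χ₂ j = χ j) {d : Cl (ZMod K)} (hd : χ (.inr (.inl d)) = true)
    {k : ℕ} (h : Mat k (Gt χ)) : Mat k (Gt χ₂) := by
  obtain ⟨f, hf, hadj⟩ := h
  obtain ⟨z, hz⟩ := cls_surj d
  have hz0 : z ≠ 0 := by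
    rintro rfl
    rw [cls_zero] at hz
    cases hz
  refine parts (Gt χ₂) (fun v : Vt K r q => v.isLeft) (fun c => c = false) (fun _ => ZMod K)
    (fun _ a => .inl (a.1 + (if a.2 = true then z else 0), if a.2 = true then 1 else 0))
    ?_ ?_ ?_ ?_ f hf (fun i => same_side h0 (hadj i)) ?_
  · rintro c _ ⟨i, s⟩ ⟨j, t⟩ hst
    simp only [Sum.inl.injEq, Prod.mk.injEq] at hst
    obtain ⟨e1, e2⟩ := hst
    have hst : s = t := by
      cases s <;> cases t <;> simp_all
    subst hst
    rw [add_right_cancel e1]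
  · intro c hc a
    simp only [Bool.not_eq_false] at hc
    rw [hc]
    rfl
  · intro c _ i
    refine ⟨.inr (.inl d), ?_, by rw [hag _ (by simp)]; exact hd⟩
    have e1 : ((i + 0 : ZMod K)) ≠ i + z := by
      intro h
      exact hz0 (add_left_cancel h).symm
    simp only [if_true, Bool.false_eq_true, if_false]
    rw [orb_ll_diff e1, add_sub_add_left_eq_sub, zero_sub, cls_neg, hz]
    rfl
  · intro c hc
    simp only [Bool.not_eq_false] at hc
    rw [hc]
    have h6 : (univ.filter fun v : Vt K r q => v.isLeft = true).card ≤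
        2 * Fintype.card (ZMod K) + 1 := by
      rw [card_left, ZMod.card]
      omega
    convert h6
  · intro i hi
    have hs := same_side h0 (hadj i)
    refine adj_of_agree (fun j hj => hag j ?_) (hadj i)
    obtain ⟨d', rfl⟩ := right_orb hi (hs ▸ hi) hj
    simp

/-- the class of an element of the block with a nonzero component in `(ZMod 2) ^ r`: the block has a
perfect matching -/
theorem block_even {χ χ₂ : Jt K r q → Bool} (h0 : χ (.inl true) = false) (d0 : Cl (Bl r q))
    (hag : ∀ j, j ≠ .inr (.inr d0) → χ₂ j = χ j) {d : Cl (Bl r q)}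
    (hd : χ (.inr (.inr d)) = true) (hdd : d ≠ d0) {z : Bl r q} (hz : cls z = some d)
    (hz1 : z.1 ≠ 0) {k : ℕ} (h : Mat k (Gt χ)) : Mat k (Gt χ₂) := by
  obtain ⟨f, hf, hadj⟩ := h
  obtain ⟨l, hl⟩ : ∃ l, z.1 l ≠ 0 := by
    by_contra hcon
    push Not at hcon
    exact hz1 (funext hcon)
  have hl1 : z.1 l = 1 := by
    have : ∀ x : ZMod 2, x ≠ 0 → x = 1 := by decide
    exact this _ hl
  have hz0 : z ≠ 0 := by
    rintro rfl
    exact hz1 rfl
  let M : Type := {u : Bl r q // u.1 l = 0}
  let pm : M × Bool → Bl r q := fun a => a.1.1 + (if a.2 = true then z else 0)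
  have hpmval : ∀ a : M × Bool, (pm a).1 l = if a.2 = true then 1 else 0 := by
    rintro ⟨⟨u, hu⟩, s⟩
    cases s
    · simp [pm, hu]
    · simp [pm, hu, hl1]
  have hpminj : Function.Injective pm := by
    intro a b hab
    have h1 := hpmval a
    rw [hab, hpmval b] at h1
    have h2 : a.2 = b.2 := by
      cases ha : a.2 <;> cases hb : b.2 <;> simp_all
    refine Prod.ext (Subtype.ext ?_) h2
    simp only [pm, h2] at hab
    exact add_right_cancel hab
  have hpmsurj : Function.Surjective pm := by
    intro u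
    by_cases hu : u.1 l = 0
    · exact ⟨(⟨u, hu⟩, false), by simp [pm]⟩
    · have hu1 : u.1 l = 1 := by
        have : ∀ x : ZMod 2, x ≠ 0 → x = 1 := by decide
        exact this _ hu
      refine ⟨(⟨u - z, ?_⟩, true), by simp [pm]⟩
      change u.1 l - z.1 l = 0
      rw [hu1, hl1, sub_self]
  have hcard : 2 ^ r * q = 2 * Fintype.card M := by
    have h1 := Fintype.card_of_bijective ⟨hpminj, hpmsurj⟩
    rw [Fintype.card_prod, Fintype.card_bool] at h1
    have h2 : Fintype.card (Bl r q) = 2 ^ r * q := by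
      rw [Fintype.card_prod, ZMod.card, Fintype.card_fun, ZMod.card, Fintype.card_fin]
    rw [← h2, ← h1, mul_comm]
  refine parts (Gt χ₂) (fun v : Vt K r q => v.isLeft) (fun c => c = true) (fun _ => M)
    (fun _ a => .inr (pm a)) ?_ ?_ ?_ ?_ f hf (fun i => same_side h0 (hadj i)) ?_
  · intro c _ a b hab
    exact hpminj (Sum.inr_injective hab)
  · intro c hc a
    simp only [Bool.not_eq_true] at hc
    rw [hc]
    rfl
  · intro c _ i
    refine ⟨.inr (.inr d), ?_, by
      rw [hag _ (by
        intro h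
        simp only [Sum.inr.injEq] at h
        exact hdd h)]
      exact hd⟩
    rw [orb_rr]
    have e1 : pm (i, false) - pm (i, true) = -z := by
      simp [pm]
    rw [e1, cls_neg, hz]
    rfl
  · intro c hc
    simp only [Bool.not_eq_true] at hc
    rw [hc]
    have h6 : (univ.filter fun v : Vt K r q => v.isLeft = false).card ≤
        2 * Fintype.card M + 1 := by
      rw [card_right, hcard]
      omega
    convert h6
  · intro i hi
    have hs := same_side h0 (hadj i)
    refine adj_of_agree (fun j hj => hag j ?_) (hadj i)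
    rcases left_orb hi (hs ▸ hi) hj with rfl | ⟨d', rfl⟩
    · simp
    · simp

/-- the parts of the vertex set: the pairs, and the cosets of `ZMod q` in the block -/
def prt : Vt K r q → Option (Fin r → ZMod 2)
  | .inl _ => none
  | .inr u => some u.1

theorem card_prt (w : Fin r → ZMod 2) :
    (univ.filter fun v : Vt K r q => prt v = some w).card = q := by
  have h : (univ.filter fun v : Vt K r q => prt v = some w) =
      (univ : Finset (ZMod q)).map ⟨fun y => Sum.inr (w, y), fun y y' h => by
        simp only [Sum.inr.injEq, Prod.mk.injEq, true_and] at h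
        exact h⟩ := by
    ext v
    rw [mem_filter, mem_map]
    constructor
    · rintro ⟨_, h⟩
      rcases v with v | ⟨w', y⟩
      · cases h
      · have : w' = w := Option.some.inj h
        subst this
        exact ⟨y, mem_univ _, rfl⟩
    · rintro ⟨y, _, rfl⟩
      exact ⟨mem_univ _, rfl⟩
  rw [h, card_map, card_univ, ZMod.card]

theorem same_prt {χ : Jt K r q → Bool} (h0 : χ (.inl true) = false)
    (hodd : ∀ d : Cl (Bl r q), χ (.inr (.inr d)) = true → ∀ z, cls z = some d → z.1 = 0)
    {u v : Vt K r q} (huv : (Gt χ).Adj u v) : prt u = prt v := by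
  obtain ⟨j, hj, hχ⟩ := huv
  have f := form_of_orb hj
  rcases j with b | d | d
  · cases b
    · obtain ⟨i, x, y, hxy, rfl, rfl⟩ := f
      rfl
    · rw [h0] at hχ
      cases hχ
  · obtain ⟨i, k, x, y, hik, rfl, rfl, hd⟩ := f
    rfl
  · obtain ⟨a, b, rfl, rfl, hd⟩ := f
    have := hodd d hχ _ hd
    change some a.1 = some b.1
    rw [sub_eq_zero.1 this]

/-- a nearly perfect matching of a coset of `ZMod q` -/
def cyc (w : Fin r → ZMod 2) (y : ZMod q) (a : Fin ((q - 1) / 2) × Bool) : Vt K r q :=
  .inr (w, ((2 * a.1.val + (if a.2 = true then 1 else 0) : ℕ) : ZMod q) * y)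

theorem cyc_inj (hq : q.Prime) (w : Fin r → ZMod 2) {y : ZMod q} (hy : y ≠ 0) :
    Function.Injective (cyc (K := K) w y) := by
  have : Fact q.Prime := ⟨hq⟩
  rintro ⟨⟨i, hi⟩, s⟩ ⟨⟨j, hj⟩, t⟩ h
  simp only [cyc, Sum.inr.injEq, Prod.mk.injEq, true_and] at h
  have h1 := mul_right_cancel₀ hy h
  rw [ZMod.natCast_eq_natCast_iff] at h1
  have h2 := Nat.ModEq.eq_of_lt_of_lt h1 (by split_ifs <;> omega) (by split_ifs <;> omega)
  cases s <;> cases t <;> simp at h2 ⊢ <;> omega

theorem cyc_adj {χ : Jt K r q → Bool} (w : Fin r → ZMod 2) {y : ZMod q} {d : Cl (Bl r q)}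
    (hd : cls ((0 : Fin r → ZMod 2), y) = some d) (hχ : χ (.inr (.inr d)) = true)
    (i : Fin ((q - 1) / 2)) : (Gt χ).Adj (cyc w y (i, false)) (cyc w y (i, true)) := by
  refine ⟨.inr (.inr d), ?_, hχ⟩
  unfold cyc
  rw [orb_rr]
  have e1 : ((w, ((2 * i.val + (if (false = true) then 1 else 0) : ℕ) : ZMod q) * y) : Bl r q) -
      (w, ((2 * i.val + (if (true = true) then 1 else 0) : ℕ) : ZMod q) * y) = -(0, y) := by
    refine Prod.ext ?_ ?_
    · simp
    · simp only [Prod.snd_sub, Prod.snd_neg, Bool.false_eq_true, if_false, if_true]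
      push_cast
      ring
  rw [e1, cls_neg, hd]
  rfl

/-- only classes of elements of `ZMod q`, and one of them not `d0`: `d0` is irrelevant -/
theorem block_odd (hq : q.Prime) (hq2 : q ≠ 2) {χ χ₂ : Jt K r q → Bool}
    (h0 : χ (.inl true) = false) (d0 : Cl (Bl r q))
    (hag : ∀ j, j ≠ .inr (.inr d0) → χ₂ j = χ j)
    (hodd : ∀ d : Cl (Bl r q), χ (.inr (.inr d)) = true → ∀ z, cls z = some d → z.1 = 0)
    {d : Cl (Bl r q)} (hd : χ (.inr (.inr d)) = true) (hdd : d ≠ d0)
    {k : ℕ} (h : Mat k (Gt χ)) : Mat k (Gt χ₂) := by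
  obtain ⟨f, hf, hadj⟩ := h
  obtain ⟨⟨w0, y⟩, hz⟩ := cls_surj d
  have hw0 : w0 = 0 := hodd d hd _ hz
  subst hw0
  have hy : y ≠ 0 := by
    rintro rfl
    have : cls (((0 : Fin r → ZMod 2), (0 : ZMod q)) : Bl r q) = none := cls_zero
    rw [this] at hz
    cases hz
  refine parts (Gt χ₂) (prt : Vt K r q → _) (fun c => c = none) (fun _ => Fin ((q - 1) / 2))
    (fun c => cyc (c.getD 0) y)
    ?_ ?_ ?_ ?_ f hf (fun i => same_prt h0 hodd (hadj i)) ?_
  · intro c _
    exact cyc_inj hq _ hy
  · intro c hc a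
    obtain ⟨w, rfl⟩ := Option.ne_none_iff_exists'.1 hc
    rfl
  · intro c _ i
    refine cyc_adj _ hz ?_ i
    rw [hag _ (by
      intro h
      simp only [Sum.inr.injEq] at h
      exact hdd h)]
    exact hd
  · intro c hc
    obtain ⟨w, rfl⟩ := Option.ne_none_iff_exists'.1 hc
    have h6 : (univ.filter fun v : Vt K r q => prt v = some w).card ≤
        2 * Fintype.card (Fin ((q - 1) / 2)) + 1 := by
      rw [card_prt, Fintype.card_fin]
      have := hq.eq_two_or_odd
      omega
    convert h6
  · intro i hi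
    have hs := same_prt h0 hodd (hadj i)
    refine adj_of_agree (fun j hj => hag j ?_) (hadj i)
    have hl : ∀ v : Vt K r q, prt v = none → v.isLeft = true := by
      rintro (v | v) hv
      · rfl
      · cases hv
    rcases left_orb (hl _ hi) (hl _ (hs ▸ hi)) hj with rfl | ⟨d', rfl⟩
    · simp
    · simp

/-! ### the remaining configurations -/

/-- only the pairs -/
theorem special_left {χ : Jt K r q → Bool} (h : ∀ j, j ≠ .inl false → χ j = false) {k : ℕ}
    (hk : K < k) : ¬ Mat k (Gt χ) := by
  rintro ⟨f, hf, hadj⟩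
  have hl : ∀ a, (f a).isLeft = true := by
    have key : ∀ u v, (Gt χ).Adj u v → u.isLeft = true ∧ v.isLeft = true := by
      intro u v huv
      obtain ⟨j, hj, hχ⟩ := huv
      have hj' : j = .inl false := by
        by_contra hne
        rw [h j hne] at hχ
        cases hχ
      subst hj'
      obtain ⟨i, x, y, _, rfl, rfl⟩ := form_of_orb hj
      exact ⟨rfl, rfl⟩
    rintro ⟨i, s⟩
    cases s
    · exact (key _ _ (hadj i)).1
    · exact (key _ _ (hadj i)).2
  have h1 : Fintype.card (Fin k × Bool) ≤ (univ.filter fun v : Vt K r q => v.isLeft = true).card := by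
    rw [← Finset.card_univ]
    refine Finset.card_le_card_of_injOn f ?_ hf.injOn
    intro a _
    simp [hl a]
  rw [card_left, Fintype.card_prod, Fintype.card_fin, Fintype.card_bool] at h1
  omega

/-- only one class of elements of `ZMod q` -/
theorem special_right {χ : Jt K r q → Bool} {d0 : Cl (Bl r q)} {y : ZMod q}
    (hd0 : cls ((0 : Fin r → ZMod 2), y) = some d0)
    (h : ∀ j, j ≠ .inr (.inr d0) → χ j = false) {k : ℕ}
    (hk : 2 ^ r * ((q - 1) / 2) < k) (hq2 : q % 2 = 1) : ¬ Mat k (Gt χ) := by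
  classical
  rintro ⟨f, hf, hadj⟩
  have key : ∀ u v, (Gt χ).Adj u v → prt u = prt v ∧ prt u ≠ none := by
    intro u v huv
    obtain ⟨j, hj, hχ⟩ := huv
    have hj' : j = .inr (.inr d0) := by
      by_contra hne
      rw [h j hne] at hχ
      cases hχ
    subst hj'
    obtain ⟨a, b, rfl, rfl, hd⟩ := form_of_orb hj
    have h1 : a.1 - b.1 = 0 := by
      rcases cls_inj hd hd0 with h2 | h2
      · exact congrArg Prod.fst h2
      · have h3 := congrArg Prod.fst h2
        simpa using h3
    refine ⟨?_, ?_⟩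
    · change some a.1 = some b.1
      rw [sub_eq_zero.1 h1]
    · intro h3
      cases h3
  have hfib : ∀ c : Option (Fin r → ZMod 2),
      (univ.filter fun i : Fin k => prt (f (i, false)) = c).card ≤
        if c = none then 0 else (q - 1) / 2 := by
    intro c
    by_cases hc : c = none
    · rw [if_pos hc, Nat.le_zero, Finset.card_eq_zero, Finset.filter_eq_empty_iff]
      intro i _ hi
      exact (key _ _ (hadj i)).2 (hi.trans hc)
    · rw [if_neg hc]
      obtain ⟨w, rfl⟩ := Option.ne_none_iff_exists'.1 hc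
      have h3 : ((univ.filter fun i : Fin k => prt (f (i, false)) = some w) ×ˢ
          (univ : Finset Bool)).card ≤
          (univ.filter fun v : Vt K r q => prt v = some w).card := by
        refine Finset.card_le_card_of_injOn f ?_ hf.injOn
        rintro ⟨i, s⟩ hi
        rw [Finset.mem_coe, Finset.mem_product, mem_filter] at hi
        rw [Finset.mem_coe, mem_filter]
        refine ⟨mem_univ _, ?_⟩
        cases s
        · exact hi.1.2
        · rw [← (key _ _ (hadj i)).1]
          exact hi.1.2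
      rw [card_prt, Finset.card_product, Finset.card_univ, Fintype.card_bool] at h3
      omega
  have hsum : k ≤ ∑ c : Option (Fin r → ZMod 2), if c = none then 0 else (q - 1) / 2 := by
    have h4 := Finset.card_eq_sum_card_fiberwise (s := (univ : Finset (Fin k)))
      (t := (univ : Finset (Option (Fin r → ZMod 2))))
      (f := fun i => prt (f (i, false))) (fun _ _ => mem_univ _)
    rw [Finset.card_univ, Fintype.card_fin] at h4
    rw [h4]
    exact Finset.sum_le_sum fun c _ => hfib c
  rw [Fintype.sum_option] at hsum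
  simp only [if_true, reduceCtorEq, if_false, zero_add, Finset.sum_const, Finset.card_univ,
    Fintype.card_fun, ZMod.card, Fintype.card_fin, smul_eq_mul] at hsum
  omega

/-- the pairs and one class of elements of `ZMod q` -/
theorem special_both (hq : q.Prime) {χ : Jt K r q → Bool} {d0 : Cl (Bl r q)} {y : ZMod q}
    (hy : y ≠ 0) (hd0 : cls ((0 : Fin r → ZMod 2), y) = some d0)
    (h1 : χ (.inl false) = true) (h2 : χ (.inr (.inr d0)) = true) {k : ℕ}
    (hk : k ≤ K + 2 ^ r * ((q - 1) / 2)) : Mat k (Gt χ) := by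
  let F : (ZMod K ⊕ ((Fin r → ZMod 2) × Fin ((q - 1) / 2))) × Bool → Vt K r q := fun a =>
    match a with
    | (.inl i, s) => .inl (i, if s = true then 1 else 0)
    | (.inr (w, j), s) => cyc w y (j, s)
  refine Mat.of_index F ?_ ?_ (k := k) ?_
  · rintro ⟨i | ⟨w, i⟩, s⟩ ⟨j | ⟨w', j⟩, t⟩ h
    · simp only [F, Sum.inl.injEq, Prod.mk.injEq] at h
      obtain ⟨rfl, h⟩ := h
      have hst : s = t := by
        cases s <;> cases t <;> simp_all
      rw [hst]
    · simp [F, cyc] at h
    · simp [F, cyc] at h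
    · simp only [F] at h
      have hw : w = w' := by
        have := congrArg prt h
        simp only [prt, cyc, Option.some.injEq] at this
        exact this
      subst hw
      have h3 := cyc_inj hq w hy h
      rw [Prod.mk.injEq] at h3
      rw [h3.1, h3.2]
  · rintro (i | ⟨w, i⟩)
    · simp only [F]
      exact ⟨_, orb_ll_same _ _ _ (by simp), h1⟩
    · simp only [F]
      exact cyc_adj w hd0 h2 i
  · rw [Fintype.card_sum, Fintype.card_prod, ZMod.card, Fintype.card_fun, ZMod.card,
      Fintype.card_fin, Fintype.card_fin]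
    exact hk

end card

end Run7.h412.MN
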