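import Mathlib

set_option autoImplicit false

/-!
# The choice of the blocks (Bertrand's postulate)
-/

namespace Run7.h412.MN

/-- the arithmetic conditions -/
structure Ok (n k K r q : ℕ) : Prop where
  pos : 0 < K
  co : Nat.Coprime K q
  pr : q.Prime
  ne : q ≠ 2
  eq : n = 2 * K + 2 ^ r * q
  h1 : K < k
  h2 : 2 ^ r * ((q - 1) / 2) < k
  h3 : k ≤ K + 2 ^ r * ((q - 1) / 2)

theorem coprime_of {K q : ℕ} (hq : q.Prime) (h : ¬ q ∣ K) : Nat.Coprime K q :=
  ((Nat.Prime.coprime_iff_not_dvd hq).2 h).symm

/-- `n` odd -/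
theorem nt_odd {n k : ℕ} (hn : n % 2 = 1) (h1 : n < 3 * k) (h2 : 2 * k ≤ n) :
    ∃ K r q, Ok n k K r q := by
  by_cases hs : n < 6
  · have h5 : n = 5 ∧ k = 2 := by omega
    obtain ⟨rfl, rfl⟩ := h5
    exact ⟨1, 0, 3, by norm_num, by norm_num, by norm_num, by norm_num, by norm_num, by norm_num,
      by norm_num, by norm_num⟩
  · obtain ⟨q, hq, hq1, hq2⟩ := Nat.exists_prime_lt_and_le_two_mul (n / 3) (by omega)
    have hq0 : q ≠ 2 := by omega
    have hqo : q % 2 = 1 := hq.eq_two_or_odd.resolve_left hq0
    refine ⟨(n - q) / 2, 0, q, by omega, ?_, hq, hq0, by omega, by omega, by omega, by omega⟩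
    refine coprime_of hq ?_
    rintro ⟨c, hc⟩
    have hc0 : c ≠ 0 := by
      rintro rfl
      omega
    have : q ≤ q * c := Nat.le_mul_of_pos_right q (Nat.pos_of_ne_zero hc0)
    omega

/-- `n` even, `r = 1` -/
theorem nt_even1 {n k q : ℕ} (hn : n % 2 = 0) (hq : q.Prime) (hq0 : q ≠ 2)
    (h2 : n < 2 * q + 2 * k) (h3 : 2 * k < n) (h4 : ¬ q ∣ n / 2) (h5 : q ≤ k) :
    ∃ K r q, Ok n k K r q := by
  have hqo : q % 2 = 1 := hq.eq_two_or_odd.resolve_left hq0
  refine ⟨n / 2 - q, 1, q, by omega, ?_, hq, hq0, by omega, by omega, by omega, by omega⟩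
  refine coprime_of hq ?_
  intro h
  apply h4
  have h6 : n / 2 = (n / 2 - q) + q := by omega
  rw [h6]
  exact Dvd.dvd.add h (dvd_refl q)

/-- `n` even, `r = 2` -/
theorem nt_even2 {n k q : ℕ} (hn : n % 2 = 0) (hq : q.Prime) (hq0 : q ≠ 2)
    (h2 : n < 4 * q + 2 * k) (h3 : 2 * k + 4 ≤ n) (h4 : ¬ q ∣ n / 2) (h5 : 2 * (q - 1) < k) :
    ∃ K r q, Ok n k K r q := by
  have hqo : q % 2 = 1 := hq.eq_two_or_odd.resolve_left hq0
  refine ⟨n / 2 - 2 * q, 2, q, by omega, ?_, hq, hq0, by omega, by omega, by omega, by omega⟩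
  refine coprime_of hq ?_
  intro h
  apply h4
  have h6 : n / 2 = (n / 2 - 2 * q) + 2 * q := by omega
  rw [h6]
  exact Dvd.dvd.add h (dvd_mul_left q 2)

/-- `n` even -/
theorem nt_even {n k : ℕ} (hn : n % 2 = 0) (h1 : n < 3 * k) (h2 : 2 * k < n) :
    ∃ K r q, Ok n k K r q := by
  by_cases hs : n < 12
  · refine nt_even1 (q := 3) hn (by norm_num) (by norm_num) (by omega) h2 (by omega) (by omega)
  · obtain ⟨q, hq, hq1, hq2⟩ := Nat.exists_prime_lt_and_le_two_mul (n / 6) (by omega)
    have hq0 : q ≠ 2 := by omega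
    by_cases hd : q ∣ n / 2
    swap
    · exact nt_even1 hn hq hq0 (by omega) h2 hd (by omega)
    · have hqo : q % 2 = 1 := hq.eq_two_or_odd.resolve_left hq0
      have hn4 : n = 4 * q := by
        obtain ⟨c, hc⟩ := hd
        have hc3 : c < 3 := by
          by_contra h
          have : q * 3 ≤ q * c := Nat.mul_le_mul_left q (by omega)
          omega
        interval_cases c
        · omega
        · omega
        · omega
      have hn2 : n / 2 = 2 * q := by omega
      by_cases h4 : 2 * k + 4 ≤ n
      · by_cases hs2 : n < 24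
        · have hn20 : n = 20 := by
            have hq5 : q < 6 := by omega
            have hq3 : 3 ≤ q := by omega
            interval_cases q
            · omega
            · omega
            · omega
          subst hn20
          exact nt_even2 (q := 3) hn (by norm_num) (by norm_num) (by omega) h4 (by norm_num)
            (by omega)
        · obtain ⟨q', hq', hq1', hq2'⟩ := Nat.exists_prime_lt_and_le_two_mul (n / 12) (by omega)
          refine nt_even2 (q := q') hn hq' (by omega) (by omega) h4 ?_ (by omega)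
          rw [hn2]
          intro h
          rcases (Nat.Prime.dvd_mul hq').1 h with h5 | h5
          · have := Nat.le_of_dvd (by norm_num) h5
            omega
          · have := (Nat.prime_dvd_prime_iff_eq hq' hq).1 h5
            omega
      · by_cases hq3 : q = 3
        · subst hq3
          have hk5 : k = 5 := by omega
          subst hk5
          subst hn4
          exact nt_even1 (q := 5) hn (by norm_num) (by norm_num) (by omega) h2 (by norm_num)
            (by omega)
        · refine nt_even1 (q := 3) hn (by norm_num) (by norm_num) (by omega) h2 ?_ (by omega)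
          rw [hn2]
          intro h
          rcases (Nat.Prime.dvd_mul Nat.prime_three).1 h with h5 | h5
          · omega
          · exact hq3 ((Nat.prime_dvd_prime_iff_eq Nat.prime_three hq).1 h5).symm

/-- **The choice of the blocks.** -/
theorem nt {n k : ℕ} (h1 : n < 3 * k) (h2 : 2 * k < n) : ∃ K r q, Ok n k K r q := by
  rcases Nat.mod_two_eq_zero_or_one n with h | h
  · exact nt_even h h1 h2
  · exact nt_odd h h1 h2.le

end Run7.h412.MN
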