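import Pool.Agent.Run7.h412.MN.Total
import Pool.Agent.Run7.h412.MN.Num
import Pool.Agent.Results.MP_257582_lc.DisjointCopies

set_option autoImplicit false

/-!
# Small matchings and perfect matchings; the final theorem
-/

namespace Run7.h412.MN

open Pool.Agent.H119R2.Kp (GP PV)
open Pool.Agent.Results.MP_257582_lc (DisjointCopies.Evasive DisjointCopies.copies
  DisjointCopies.Holds)

theorem mat_bot {n k : ℕ} (hk : 1 ≤ k) : ¬ Mat k (⊥ : SimpleGraph (Fin n)) := by
  rintro ⟨f, _, h⟩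
  exact h ⟨0, hk⟩

/-- disjoint paths contain many disjoint edges -/
theorem mat_copies {k' Q k : ℕ} (h : k ≤ k' * (Q / 2)) :
    Mat k (DisjointCopies.copies k' (SimpleGraph.pathGraph Q)) := by
  refine Mat.of_index (M := Fin k' × Fin (Q / 2))
    (fun a => (a.1.1, ⟨2 * a.1.2.val + (if a.2 = true then 1 else 0), by
      have := a.1.2.2
      split_ifs <;> omega⟩)) ?_ ?_ ?_
  · rintro ⟨⟨i, j⟩, s⟩ ⟨⟨i', j'⟩, s'⟩ h
    simp only [Prod.mk.injEq, Fin.mk.injEq] at h
    obtain ⟨h1, h2⟩ := h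
    subst h1
    have h3 : j = j' := by
      apply Fin.ext
      split_ifs at h2 <;> omega
    subst h3
    cases s <;> cases s' <;> simp at h2 ⊢
  · rintro ⟨i, j⟩
    refine ⟨rfl, ?_⟩
    rw [SimpleGraph.pathGraph_adj]
    left
    simp
  · rw [Fintype.card_prod, Fintype.card_fin, Fintype.card_fin]
    exact h

theorem evasive_copies {n k k' Q : ℕ} (hQ : Q.Prime) (hn : n = k' * Q) (hk : 1 ≤ k)
    (h : k ≤ k' * (Q / 2)) :
    DisjointCopies.Evasive (Mat k : SimpleGraph (Fin n) → Prop) := by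
  refine Pool.Agent.Results.MP_257582_lc.DisjointCopies.result n k' Q hQ.isPrimePow hn
    (SimpleGraph.pathGraph Q) (Or.inl ⟨hQ, rfl⟩) _ (fun G H hGH hG => hG.mono hGH)
    (fun σ G hG => hG.map σ) (Or.inl ⟨mat_bot hk, ?_⟩)
  subst hn
  exact ⟨finProdFinEquiv, (mat_copies h).map _⟩

/-- **Containing `k` disjoint edges is evasive, for all `n` and `k`.** -/
theorem evasive {n k : ℕ} (hk : 1 ≤ k) (hkn : 2 * k ≤ n) :
    DisjointCopies.Evasive (Mat k : SimpleGraph (Fin n) → Prop) := by
  by_cases h0 : n = 2 * k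
  · exact evasive_copies Nat.prime_two (k' := k) (by omega) hk (by omega)
  · by_cases h1 : 3 * k ≤ n
    · have hp : n.minFac.Prime := Nat.minFac_prime (by omega)
      obtain ⟨c, hc⟩ := Nat.minFac_dvd n
      refine evasive_copies hp (k' := c) (by rw [mul_comm]; exact hc) hk ?_
      have h2 := hp.two_le
      have h3 : n.minFac ≤ 3 * (n.minFac / 2) := by omega
      have h4 : n ≤ 3 * (c * (n.minFac / 2)) := by
        calc n = n.minFac * c := hc
          _ ≤ 3 * (n.minFac / 2) * c := Nat.mul_le_mul_right c h3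
          _ = 3 * (c * (n.minFac / 2)) := by ring
      omega
    · obtain ⟨K, r, q, h⟩ := nt (n := n) (k := k) (by omega) (by omega)
      have : NeZero K := ⟨h.pos.ne'⟩
      have : NeZero q := ⟨h.pr.ne_zero⟩
      intro σ hσ
      by_contra hcon
      refine no_GP h.co h.pr h.ne h.eq h.h1 h.h2 h.h3
        ⟨fun G H hGH hG => hG.mono hGH, fun σ G hG => hG.map σ,
          Pool.Agent.H119R2.Kp.dec_of_strategy _ _ σ hσ fun G H hGH hPG => ?_⟩
      by_contra hPH
      exact hcon ⟨G, H, hGH, hPG, hPH⟩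

end Run7.h412.MN
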