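import Mathlib

set_option autoImplicit false

/-!
# Matchings: an exchange lemma, and replacement inside parts
-/

namespace Run7.h412.MN

open Finset

/-- `G` has a matching with `k` edges -/
def Mat {V : Type} (k : ℕ) (G : SimpleGraph V) : Prop :=
  ∃ f : Fin k × Bool → V, Function.Injective f ∧ ∀ i, G.Adj (f (i, false)) (f (i, true))

theorem Mat.mono {V : Type} {k : ℕ} {G H : SimpleGraph V} (h : G ≤ H) (hG : Mat k G) :
    Mat k H := by
  obtain ⟨f, h1, h2⟩ := hG
  exact ⟨f, h1, fun i => h (h2 i)⟩

theorem Mat.map {V W : Type} {k : ℕ} {G : SimpleGraph V} (e : V ≃ W) (hG : Mat k G) :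
    Mat k (G.map e.toEmbedding) := by
  obtain ⟨f, h1, h2⟩ := hG
  refine ⟨fun a => e (f a), e.injective.comp h1, fun i => ?_⟩
  rw [SimpleGraph.map_adj]
  exact ⟨_, _, h2 i, rfl, rfl⟩

theorem Mat.of_map {V W : Type} {k : ℕ} {G : SimpleGraph V} (e : V ≃ W)
    (hG : Mat k (G.map e.toEmbedding)) : Mat k G := by
  obtain ⟨f, h1, h2⟩ := hG
  refine ⟨fun a => e.symm (f a), e.symm.injective.comp h1, fun i => ?_⟩
  have h := h2 i
  rw [SimpleGraph.map_adj] at h
  obtain ⟨u, v, huv, hu, hv⟩ := h
  have hu' : e.symm (f (i, false)) = u := by
    rw [← hu]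
    exact e.symm_apply_apply u
  have hv' : e.symm (f (i, true)) = v := by
    rw [← hv]
    exact e.symm_apply_apply v
  change G.Adj (e.symm (f (i, false))) (e.symm (f (i, true)))
  rwa [hu', hv']

theorem Mat.of_index {V M : Type} [Fintype M] {G : SimpleGraph V} (f : M × Bool → V)
    (h1 : Function.Injective f) (h2 : ∀ i, G.Adj (f (i, false)) (f (i, true))) {k : ℕ}
    (hk : k ≤ Fintype.card M) : Mat k G := by
  obtain ⟨g⟩ : Nonempty (Fin k ↪ M) := by
    refine Function.Embedding.nonempty_of_card_le ?_
    rwa [Fintype.card_fin]
  refine ⟨fun a => f (g a.1, a.2), ?_, fun i => h2 (g i)⟩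
  rintro ⟨i, s⟩ ⟨j, t⟩ h
  have h3 := h1 h
  simp only [Prod.mk.injEq] at h3
  rw [Prod.mk.injEq]
  exact ⟨g.injective h3.1, h3.2⟩

theorem pne {k : ℕ} (a : Fin k × Bool) : (a.1, !a.2) ≠ a := by
  obtain ⟨i, s⟩ := a
  cases s <;> simp

theorem pinj {k : ℕ} {a b : Fin k × Bool} (h : ((a.1, !a.2) : Fin k × Bool) = (b.1, !b.2)) :
    a = b := by
  obtain ⟨i, s⟩ := a
  obtain ⟨j, t⟩ := b
  simp only [Prod.mk.injEq] at h
  obtain ⟨h1, h2⟩ := h
  subst h1
  cases s <;> cases t <;> simp_all

open Classical in
/-- **Exchange.** All pairs between `X` and its complement are edges, and `X` is not larger than its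
complement. Then the edges inside `X` are not needed for a matching with `k` edges. -/
theorem half {V : Type} [Fintype V] (H : SimpleGraph V) (X : Finset V)
    (hj : ∀ x ∈ X, ∀ y ∉ X, H.Adj x y) (hc : 2 * X.card ≤ Fintype.card V) {k : ℕ} (b : ℕ) :
    ∀ (f : Fin k × Bool → V), Function.Injective f →
    (∀ i, H.Adj (f (i, false)) (f (i, true)) ∨ (f (i, false) ∈ X ∧ f (i, true) ∈ X)) →
    (univ.filter fun i => ¬ H.Adj (f (i, false)) (f (i, true))).card ≤ b → Mat k H := by
  induction b with
  | zero =>
    intro f hf _ h0
    rw [Nat.le_zero, Finset.card_eq_zero, Finset.filter_eq_empty_iff] at h0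
    exact ⟨f, hf, fun i => not_not.1 (h0 (mem_univ i))⟩
  | succ b ih =>
    intro f hf hadj hb
    by_cases hbad : ∃ i, ¬ H.Adj (f (i, false)) (f (i, true))
    swap
    · push Not at hbad
      exact ⟨f, hf, hbad⟩
    obtain ⟨i, hi⟩ := hbad
    obtain ⟨hx, hx'⟩ := (hadj i).resolve_left hi
    -- a vertex outside `X` which is not matched to `X`
    obtain ⟨y, hyX, hy⟩ : ∃ y, y ∉ X ∧ ∀ a, f a = y → f (a.1, !a.2) ∉ X := by
      by_contra hcon
      push Not at hcon
      have : Nonempty (Fin k × Bool) := ⟨(i, true)⟩
      choose! g hg1 hg2 using hcon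
      have h1 : (Xᶜ).card ≤ (X.erase (f (i, false))).card := by
        refine Finset.card_le_card_of_injOn (fun y => f ((g y).1, !(g y).2)) ?_ ?_
        · intro y hy
          rw [Finset.mem_coe, Finset.mem_compl] at hy
          rw [Finset.mem_coe, Finset.mem_erase]
          refine ⟨?_, hg2 y hy⟩
          intro h
          have h2 := hf h
          have h3 : g y = (i, true) := by
            refine pinj ?_
            rw [h2]
            rfl
          have h4 := hg1 y hy
          rw [h3] at h4
          exact hy (h4 ▸ hx')
        · intro y hy y' hy' h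
          rw [Finset.mem_coe, Finset.mem_compl] at hy hy'
          have h2 := pinj (hf h)
          rw [← hg1 y hy, ← hg1 y' hy', h2]
      rw [Finset.card_erase_of_mem hx] at h1
      have h5 : 0 < X.card := Finset.card_pos.2 ⟨_, hx⟩
      rw [Finset.card_compl] at h1
      omega
    have fin : ∀ f' : Fin k × Bool → V, Function.Injective f' →
        (∀ l, H.Adj (f' (l, false)) (f' (l, true)) ∨
          (l ≠ i ∧ f' (l, false) = f (l, false) ∧ f' (l, true) = f (l, true))) → Mat k H := by
      intro f' hf' h'
      refine ih f' hf' ?_ ?_
      · intro l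
        rcases h' l with h | ⟨_, h1, h2⟩
        · exact Or.inl h
        · rw [h1, h2]
          exact hadj l
      · have hlt : (univ.filter fun l => ¬ H.Adj (f' (l, false)) (f' (l, true))).card <
            (univ.filter fun l => ¬ H.Adj (f (l, false)) (f (l, true))).card := by
          refine Finset.card_lt_card ?_
          rw [Finset.ssubset_iff_of_subset]
          · refine ⟨i, ?_, ?_⟩
            · rw [mem_filter]
              exact ⟨mem_univ _, hi⟩
            · rw [mem_filter]
              rintro ⟨_, h⟩
              rcases h' i with h1 | ⟨h1, _⟩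
              · exact h h1
              · exact h1 rfl
          · intro l hl
            rw [mem_filter] at hl ⊢
            refine ⟨mem_univ _, ?_⟩
            rcases h' l with h1 | ⟨_, h2, h3⟩
            · exact absurd h1 hl.2
            · rw [← h2, ← h3]
              exact hl.2
        omega
    by_cases hyr : ∃ a, f a = y
    · obtain ⟨a, ha⟩ := hyr
      have hpa : f (a.1, !a.2) ∉ X := hy a ha
      have hai : a.1 ≠ i := by
        intro h
        apply hyX
        rw [← ha]
        obtain ⟨j, s⟩ := a
        simp only at h
        subst h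
        cases s
        · exact hx
        · exact hx'
      have haX : f a ∉ X := by rw [ha]; exact hyX
      refine fin (fun u => f (Equiv.swap (i, true) a u))
        (hf.comp (Equiv.injective _)) ?_
      intro l
      by_cases hli : l = i
      · subst hli
        left
        have e1 : Equiv.swap (l, true) a (l, false) = (l, false) := by
          refine Equiv.swap_apply_of_ne_of_ne (by simp) ?_
          intro h
          exact hai (by rw [← h])
        simp only [e1, Equiv.swap_apply_left]
        exact hj _ hx _ haX
      · by_cases hla : l = a.1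
        · left
          have e2 : Equiv.swap (i, true) a (a.1, !a.2) = (a.1, !a.2) := by
            refine Equiv.swap_apply_of_ne_of_ne ?_ (pne a)
            intro h
            have := congrArg Prod.fst h
            exact hai this
          have e3 : Equiv.swap (i, true) a a = (i, true) := Equiv.swap_apply_right _ _
          obtain ⟨j, s⟩ := a
          simp only at hla
          subst hla
          cases s
          · simp only [e3]
            simp only [Bool.not_false] at e2 hpa
            rw [e2]
            exact hj _ hx' _ hpa
          · simp only [e3]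
            simp only [Bool.not_true] at e2 hpa
            rw [e2]
            exact (hj _ hx' _ hpa).symm
        · right
          have e4 : ∀ s, Equiv.swap (i, true) a (l, s) = (l, s) := by
            intro s
            refine Equiv.swap_apply_of_ne_of_ne ?_ ?_
            · intro h
              exact hli (congrArg Prod.fst h)
            · intro h
              exact hla (by rw [← h])
          simp only [e4]
          exact ⟨hli, trivial, trivial⟩
    · push Not at hyr
      refine fin (Function.update f (i, true) y) ?_ ?_
      · intro u v huv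
        by_cases hu : u = (i, true)
        · by_cases hv : v = (i, true)
          · rw [hu, hv]
          · rw [hu, Function.update_self, Function.update_of_ne hv] at huv
            exact absurd huv.symm (hyr v)
        · by_cases hv : v = (i, true)
          · rw [hv, Function.update_self, Function.update_of_ne hu] at huv
            exact absurd huv (hyr u)
          · rw [Function.update_of_ne hu, Function.update_of_ne hv] at huv
            exact hf huv
      · intro l
        by_cases hli : l = i
        · subst hli
          left
          rw [Function.update_self, Function.update_of_ne (by simp)]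
          exact hj _ hx _ hyX
        · right
          refine ⟨hli, ?_, ?_⟩
          · rw [Function.update_of_ne]
            intro h
            exact hli (congrArg Prod.fst h)
          · rw [Function.update_of_ne]
            intro h
            exact hli (congrArg Prod.fst h)

/-- the exchange lemma for two graphs -/
theorem half_two {V : Type} [Fintype V] {G H : SimpleGraph V} (X : Finset V)
    (hj : ∀ x ∈ X, ∀ y ∉ X, H.Adj x y) (hc : 2 * X.card ≤ Fintype.card V)
    (hG : ∀ u v, G.Adj u v → H.Adj u v ∨ (u ∈ X ∧ v ∈ X)) {k : ℕ} (h : Mat k G) : Mat k H := by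
  obtain ⟨f, h1, h2⟩ := h
  exact half H X hj hc _ f h1 (fun i => hG _ _ (h2 i)) le_rfl

open Classical in
/-- **Replacement.** The vertices are cut into parts. Some of the parts have nearly perfect matchings
in `H`; then the pairs of a system of disjoint pairs which are inside these parts can be replaced by
edges of `H`. -/
theorem parts {V C : Type} [Fintype V] (H : SimpleGraph V) (π : V → C)
    (keep : C → Prop) (M : C → Type) [∀ c, Fintype (M c)] (pm : ∀ c, M c × Bool → V)
    (hpi : ∀ c, ¬ keep c → Function.Injective (pm c))
    (hpπ : ∀ c, ¬ keep c → ∀ a, π (pm c a) = c)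
    (hpa : ∀ c, ¬ keep c → ∀ i, H.Adj (pm c (i, false)) (pm c (i, true)))
    (hpc : ∀ c, ¬ keep c → (univ.filter fun v => π v = c).card ≤ 2 * Fintype.card (M c) + 1)
    {k : ℕ} (f : Fin k × Bool → V) (hf : Function.Injective f)
    (h1 : ∀ i, π (f (i, false)) = π (f (i, true)))
    (h2 : ∀ i, keep (π (f (i, false))) → H.Adj (f (i, false)) (f (i, true))) : Mat k H := by
  have key : ∀ c, ¬ keep c → Nonempty ({i : Fin k // π (f (i, false)) = c} ↪ M c) := by
    intro c hc
    refine Function.Embedding.nonempty_of_card_le ?_
    have h3 : Fintype.card ({i : Fin k // π (f (i, false)) = c} × Bool) ≤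
        (univ.filter fun v => π v = c).card := by
      rw [← Finset.card_univ]
      refine Finset.card_le_card_of_injOn (fun a => f (a.1.1, a.2)) ?_ ?_
      · rintro ⟨⟨i, hi⟩, s⟩ _
        simp only [Finset.coe_filter, Set.mem_ofPred_eq, mem_univ, true_and]
        cases s
        · exact hi
        · rw [← h1 i]
          exact hi
      · rintro ⟨⟨i, hi⟩, s⟩ _ ⟨⟨j, hj⟩, t⟩ _ h
        have := hf h
        simp only [Prod.mk.injEq] at this
        obtain ⟨e1, e2⟩ := this
        subst e1
        subst e2
        rfl
    rw [Fintype.card_prod, Fintype.card_bool] at h3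
    have := hpc c hc
    omega
  have key' : ∀ c, ∃ g : ¬ keep c → ({i : Fin k // π (f (i, false)) = c} ↪ M c), True := by
    intro c
    by_cases hc : keep c
    · exact ⟨fun h => absurd hc h, trivial⟩
    · obtain ⟨g⟩ := key c hc
      exact ⟨fun _ => g, trivial⟩
  choose g _ using key'
  let f' : Fin k × Bool → V := fun a =>
    if h : keep (π (f (a.1, false))) then f a
    else pm (π (f (a.1, false))) (g _ h ⟨a.1, rfl⟩, a.2)
  have hpos : ∀ a, keep (π (f (a.1, false))) → f' a = f a := by
    intro a h
    simp only [f']
    rw [dif_pos h]
  have hneg : ∀ a c (hc : π (f (a.1, false)) = c) (h : ¬ keep c),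
      f' a = pm c (g c h ⟨a.1, hc⟩, a.2) := by
    intro a c hc h
    subst hc
    simp only [f']
    rw [dif_neg h]
  have hπ : ∀ a, π (f' a) = π (f (a.1, false)) := by
    intro a
    by_cases h : keep (π (f (a.1, false)))
    · rw [hpos a h]
      obtain ⟨i, s⟩ := a
      cases s
      · rfl
      · exact (h1 i).symm
    · rw [hneg a _ rfl h, hpπ _ h]
  refine ⟨f', ?_, ?_⟩
  · intro a b hab
    have h3 : π (f (b.1, false)) = π (f (a.1, false)) := by rw [← hπ, ← hπ, hab]
    by_cases h : keep (π (f (a.1, false)))
    · rw [hpos a h, hpos b (h3 ▸ h)] at hab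
      exact hf hab
    · rw [hneg a _ rfl h, hneg b _ h3 h] at hab
      have h4 := hpi _ h hab
      rw [Prod.mk.injEq] at h4
      have h5 := (g _ h).injective h4.1
      rw [Subtype.mk.injEq] at h5
      exact Prod.ext h5 h4.2
  · intro i
    by_cases h : keep (π (f (i, false)))
    · rw [hpos (i, false) h, hpos (i, true) h]
      exact h2 i h
    · rw [hneg (i, false) _ rfl h, hneg (i, true) _ rfl h]
      exact hpa _ h _

end Run7.h412.MN
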