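import Pool.Agent.TH669.KC.Model
import Pool.Agent.Run7.h412.MN.Match

set_option autoImplicit false
set_option linter.unusedSectionVars false

/-!
# The group and its orbits

`K` pairs of vertices, and one block, the group `(ZMod 2) ^ r × ZMod q`.
-/

namespace Run7.h412.MN

open Finset
open Pool.Agent.H119R2.Kp (GP PV)
open Pool.Agent.TH669.KP (sgn bit GR GR_adj rel_orb)
open Pool.Agent.TH669.KC (Cl cls cls_zero cls_of_ne cls_ne_none cls_neg cls_inj cls_surj)

/-- the block -/
abbrev Bl (r q : ℕ) : Type := (Fin r → ZMod 2) × ZMod q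

/-- the vertices -/
abbrev Vt (K r q : ℕ) : Type := (ZMod K × ZMod 2) ⊕ Bl r q

/-- the orbits; `inl false`: the `K` pairs, `inl true`: the join -/
abbrev Jt (K r q : ℕ) : Type := Bool ⊕ (Cl (ZMod K) ⊕ Cl (Bl r q))

noncomputable instance instDecJt (K r q : ℕ) : DecidableEq (Jt K r q) := Classical.decEq _

variable {K r q : ℕ}

/-- the orbit of a pair -/
def orb : Vt K r q → Vt K r q → Option (Jt K r q)
  | .inl u, .inl v => if u.1 = v.1 then (if u.2 = v.2 then none else some (.inl false))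
      else (cls (u.1 - v.1)).map fun d => .inr (.inl d)
  | .inl _, .inr _ => some (.inl true)
  | .inr _, .inl _ => some (.inl true)
  | .inr u, .inr v => (cls (u - v)).map fun d => .inr (.inr d)

theorem orb_ll_same (i : ZMod K) (x y : ZMod 2) (h : x ≠ y) :
    orb (r := r) (q := q) (.inl (i, x)) (.inl (i, y)) = some (.inl false) := by
  simp [orb, h]

theorem orb_ll_diff {i j : ZMod K} (h : i ≠ j) (x y : ZMod 2) :
    orb (r := r) (q := q) (.inl (i, x)) (.inl (j, y)) =
      (cls (i - j)).map fun d => .inr (.inl d) := by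
  simp only [orb]
  rw [if_neg h]

theorem orb_lr (u : ZMod K × ZMod 2) (v : Bl r q) :
    orb (.inl u) (.inr v) = some (.inl true) := rfl

theorem orb_rl (u : ZMod K × ZMod 2) (v : Bl r q) :
    orb (.inr v) (.inl u) = some (.inl true) := rfl

theorem orb_rr (u v : Bl r q) : orb (K := K) (.inr u) (.inr v) =
    (cls (u - v)).map fun d => .inr (.inr d) := rfl

theorem orb_self (u : Vt K r q) : orb u u = none := by
  rcases u with ⟨i, x⟩ | u
  · simp [orb]
  · rw [orb_rr, sub_self, cls_zero]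
    rfl

theorem orb_symm (u v : Vt K r q) : orb u v = orb v u := by
  rcases u with ⟨i, x⟩ | u
  · rcases v with ⟨j, y⟩ | v
    · by_cases h : i = j
      · subst h
        by_cases h' : x = y
        · subst h'
          rfl
        · rw [orb_ll_same _ _ _ h', orb_ll_same _ _ _ (Ne.symm h')]
      · rw [orb_ll_diff h, orb_ll_diff (Ne.symm h), ← cls_neg, neg_sub]
    · rfl
  · rcases v with v | v
    · rfl
    · rw [orb_rr, orb_rr, ← cls_neg, neg_sub]

theorem orb_ne_none (u v : Vt K r q) (huv : u ≠ v) : orb u v ≠ none := by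
  rcases u with ⟨i, x⟩ | u
  · rcases v with ⟨j, y⟩ | v
    · by_cases h : i = j
      · subst h
        have h' : x ≠ y := fun h => huv (by rw [h])
        rw [orb_ll_same _ _ _ h']
        simp
      · rw [orb_ll_diff h, Ne, Option.map_eq_none_iff]
        exact cls_ne_none (sub_ne_zero.2 h)
    · simp [orb_lr]
  · rcases v with v | v
    · simp [orb_rl]
    · rw [orb_rr, Ne, Option.map_eq_none_iff]
      exact cls_ne_none (sub_ne_zero.2 fun h => huv (by rw [h]))

theorem orb_exists (j : Jt K r q) : ∃ u v : Vt K r q, orb u v = some j := by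
  rcases j with b | d | d
  · cases b
    · exact ⟨.inl (0, 0), .inl (0, 1), orb_ll_same _ _ _ (by decide)⟩
    · exact ⟨.inl 0, .inr 0, rfl⟩
  · obtain ⟨z, hz⟩ := cls_surj d
    have hz0 : z ≠ 0 := by
      rintro rfl
      rw [cls_zero] at hz
      cases hz
    refine ⟨.inl (z, 0), .inl (0, 0), ?_⟩
    rw [orb_ll_diff hz0, sub_zero, hz]
    rfl
  · obtain ⟨z, hz⟩ := cls_surj d
    refine ⟨.inr z, .inr 0, ?_⟩
    rw [orb_rr, sub_zero, hz]
    rfl

/-! ### the group -/

/-- the rotation -/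
def cP (K r q : ℕ) : Equiv.Perm (Vt K r q) :=
  Equiv.sumCongr (Equiv.prodCongr (Equiv.addRight (1 : ZMod K)) (Equiv.refl (ZMod 2)))
    (Equiv.prodCongr (Equiv.refl (Fin r → ZMod 2)) (Equiv.addRight (1 : ZMod q)))

/-- exchange of the vertices of some pairs, and translation of the block -/
def aP (a : (ZMod K → ZMod 2) × (Fin r → ZMod 2)) : Equiv.Perm (Vt K r q) :=
  Equiv.sumCongr
    { toFun := fun u => (u.1, u.2 + a.1 u.1)
      invFun := fun u => (u.1, u.2 - a.1 u.1)
      left_inv := fun u => by simp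
      right_inv := fun u => by simp }
    (Equiv.prodCongr (Equiv.addRight a.2) (Equiv.refl (ZMod q)))

theorem cP_l (u : ZMod K × ZMod 2) : cP K r q (.inl u) = .inl (u.1 + 1, u.2) := rfl

theorem cP_r (u : Bl r q) : cP K r q (.inr u) = .inr (u.1, u.2 + 1) := rfl

theorem aP_l (a : (ZMod K → ZMod 2) × (Fin r → ZMod 2)) (u : ZMod K × ZMod 2) :
    aP (q := q) a (.inl u) = .inl (u.1, u.2 + a.1 u.1) := rfl

theorem aP_r (a : (ZMod K → ZMod 2) × (Fin r → ZMod 2)) (u : Bl r q) :
    aP (K := K) a (.inr u) = .inr (u.1 + a.2, u.2) := rfl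

theorem cP_pow_l (t : ℕ) (u : ZMod K × ZMod 2) :
    (cP K r q ^ t) (.inl u) = .inl (u.1 + (t : ZMod K), u.2) := by
  induction t generalizing u with
  | zero => simp
  | succ t ih =>
    rw [pow_succ, Equiv.Perm.mul_apply, cP_l, ih]
    push_cast
    rw [add_assoc, add_comm (1 : ZMod K)]

theorem cP_pow_r (t : ℕ) (u : Bl r q) :
    (cP K r q ^ t) (.inr u) = .inr (u.1, u.2 + (t : ZMod q)) := by
  induction t generalizing u with
  | zero => simp
  | succ t ih =>
    rw [pow_succ, Equiv.Perm.mul_apply, cP_r, ih]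
    push_cast
    rw [add_assoc, add_comm (1 : ZMod q)]

theorem aP_comm (a b : (ZMod K → ZMod 2) × (Fin r → ZMod 2)) :
    aP (q := q) a * aP b = aP b * aP a := by
  ext1 u
  rw [Equiv.Perm.mul_apply, Equiv.Perm.mul_apply]
  rcases u with u | u
  · rw [aP_l, aP_l, aP_l, aP_l, add_assoc, add_assoc, add_comm (b.1 u.1)]
  · rw [aP_r, aP_r, aP_r, aP_r, add_assoc, add_assoc, add_comm b.2]

theorem two_eq (x : ZMod 2) : x + x = 0 := by
  revert x
  decide

theorem two_four : ∀ x x' y y' : ZMod 2, x ≠ y → x' ≠ y' → y + (x' - x) = y' := by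
  decide

theorem aP_sq (a : (ZMod K → ZMod 2) × (Fin r → ZMod 2)) : aP (q := q) a ^ 2 = 1 := by
  ext1 u
  rw [pow_two, Equiv.Perm.mul_apply, Equiv.Perm.one_apply]
  rcases u with u | u
  · rw [aP_l, aP_l, add_assoc, two_eq, add_zero]
  · rw [aP_r, aP_r, add_assoc]
    have : a.2 + a.2 = 0 := funext fun i => two_eq _
    rw [this, add_zero]

theorem cP_conj (a : (ZMod K → ZMod 2) × (Fin r → ZMod 2)) :
    (cP K r q)⁻¹ * aP a * cP K r q = aP (fun i => a.1 (i + 1), a.2) := by
  rw [mul_assoc, inv_mul_eq_iff_eq_mul]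
  ext1 u
  rw [Equiv.Perm.mul_apply, Equiv.Perm.mul_apply]
  rcases u with u | u
  · rw [cP_l, aP_l, aP_l, cP_l]
  · rw [cP_r, aP_r, aP_r, cP_r]

theorem orb_cP (u v : Vt K r q) : orb (cP K r q u) (cP K r q v) = orb u v := by
  rcases u with ⟨i, x⟩ | u
  · rcases v with ⟨j, y⟩ | v
    · rw [cP_l, cP_l]
      by_cases h : i = j
      · subst h
        by_cases h' : x = y
        · subst h'
          rw [orb_self, orb_self]
        · rw [orb_ll_same _ _ _ h', orb_ll_same _ _ _ h']
      · rw [orb_ll_diff h, orb_ll_diff (fun h' => h (add_right_cancel h')),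
          add_sub_add_right_eq_sub]
    · rfl
  · rcases v with v | v
    · rfl
    · rw [cP_r, cP_r, orb_rr, orb_rr]
      congr 2
      refine Prod.ext ?_ ?_
      · rfl
      · change u.2 + 1 - (v.2 + 1) = u.2 - v.2
        rw [add_sub_add_right_eq_sub]

theorem orb_aP (a : (ZMod K → ZMod 2) × (Fin r → ZMod 2)) (u v : Vt K r q) :
    orb (aP a u) (aP a v) = orb u v := by
  rcases u with ⟨i, x⟩ | u
  · rcases v with ⟨j, y⟩ | v
    · rw [aP_l, aP_l]
      by_cases h : i = j
      · subst h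
        by_cases h' : x = y
        · subst h'
          rw [orb_self, orb_self]
        · rw [orb_ll_same _ _ _ h', orb_ll_same _ _ _ (fun h => h' (add_right_cancel h))]
      · rw [orb_ll_diff h, orb_ll_diff h]
    · rfl
  · rcases v with v | v
    · rfl
    · rw [aP_r, aP_r, orb_rr, orb_rr]
      congr 2
      refine Prod.ext ?_ ?_
      · change u.1 + a.2 - (v.1 + a.2) = u.1 - v.1
        rw [add_sub_add_right_eq_sub]
      · rfl

/-- a power of the rotation with prescribed shifts -/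
theorem exists_pow [NeZero K] [NeZero q] (hco : Nat.Coprime K q) (s : ZMod K) (t : ZMod q) :
    ∃ m : ℕ, (m : ZMod K) = s ∧ (m : ZMod q) = t := by
  obtain ⟨m, h1, h2⟩ := Nat.chineseRemainder hco s.val t.val
  refine ⟨m, ?_, ?_⟩
  · rw [← ZMod.natCast_zmod_val s]
    exact (ZMod.natCast_eq_natCast_iff _ _ _).2 h1
  · rw [← ZMod.natCast_zmod_val t]
    exact (ZMod.natCast_eq_natCast_iff _ _ _).2 h2

/-- the shape of the pairs in an orbit -/
def Form (u v : Vt K r q) : Jt K r q → Prop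
  | .inl false => ∃ i x y, x ≠ y ∧ u = .inl (i, x) ∧ v = .inl (i, y)
  | .inl true => (∃ a b, u = .inl a ∧ v = .inr b) ∨ (∃ a b, u = .inr b ∧ v = .inl a)
  | .inr (.inl d) => ∃ i k x y, i ≠ k ∧ u = .inl (i, x) ∧ v = .inl (k, y) ∧ cls (i - k) = some d
  | .inr (.inr d) => ∃ a b, u = .inr a ∧ v = .inr b ∧ cls (a - b) = some d

theorem form_of_orb {u v : Vt K r q} {j : Jt K r q} (h : orb u v = some j) : Form u v j := by
  rcases u with ⟨i, x⟩ | u
  · rcases v with ⟨k, y⟩ | v
    · by_cases hik : i = k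
      · subst hik
        by_cases hxy : x = y
        · subst hxy
          rw [orb_self] at h
          cases h
        · rw [orb_ll_same _ _ _ hxy] at h
          obtain rfl := Option.some.inj h
          exact ⟨i, x, y, hxy, rfl, rfl⟩
      · rw [orb_ll_diff hik, Option.map_eq_some_iff] at h
        obtain ⟨d, hd, rfl⟩ := h
        exact ⟨i, k, x, y, hik, rfl, rfl, hd⟩
    · rw [orb_lr] at h
      obtain rfl := Option.some.inj h
      exact Or.inl ⟨_, _, rfl, rfl⟩
  · rcases v with ⟨k, y⟩ | v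
    · rw [orb_rl] at h
      obtain rfl := Option.some.inj h
      exact Or.inr ⟨_, _, rfl, rfl⟩
    · rw [orb_rr, Option.map_eq_some_iff] at h
      obtain ⟨d, hd, rfl⟩ := h
      exact ⟨u, v, rfl, rfl, hd⟩

variable [NeZero K] [NeZero q]

theorem orb_trans (hco : Nat.Coprime K q) (j : Jt K r q) (u v u' v' : Vt K r q)
    (h : orb u v = some j) (h' : orb u' v' = some j) :
    ∃ g ∈ Subgroup.closure (insert (cP K r q)
      (Set.range (aP : (ZMod K → ZMod 2) × (Fin r → ZMod 2) → Equiv.Perm (Vt K r q)))),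
      (g u = u' ∧ g v = v') ∨ (g u = v' ∧ g v = u') := by
  classical
  set Γ := Subgroup.closure (insert (cP K r q)
      (Set.range (aP : (ZMod K → ZMod 2) × (Fin r → ZMod 2) → Equiv.Perm (Vt K r q)))) with hΓ
  have main : ∀ (s : ZMod K) (t : ZMod q) (a : (ZMod K → ZMod 2) × (Fin r → ZMod 2)),
      ∃ g ∈ Γ, (∀ u : ZMod K × ZMod 2, g (.inl u) = .inl (u.1 + s, u.2 + a.1 (u.1 + s))) ∧
      (∀ u : Bl r q, g (.inr u) = .inr (u.1 + a.2, u.2 + t)) := by
    intro s t a
    obtain ⟨m, hm1, hm2⟩ := exists_pow hco s t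
    refine ⟨aP a * cP K r q ^ m, ?_, fun u => ?_, fun u => ?_⟩
    · refine Subgroup.mul_mem _ ?_ (Subgroup.pow_mem _ ?_ _)
      · exact Subgroup.subset_closure (Set.mem_insert_of_mem _ ⟨a, rfl⟩)
      · exact Subgroup.subset_closure (Set.mem_insert _ _)
    · rw [Equiv.Perm.mul_apply, cP_pow_l, hm1, aP_l]
    · rw [Equiv.Perm.mul_apply, cP_pow_r, hm2, aP_r]
  -- pairs in the left part
  have left : ∀ (i i' k k' : ZMod K) (x x' y y' : ZMod 2), i - k = i' - k' → (i = k → x ≠ y) →
      (i' = k' → x' ≠ y') → ∃ g ∈ Γ, g (.inl (i, x)) = .inl (i', x') ∧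
        g (.inl (k, y)) = .inl (k', y') := by
    intro i i' k k' x x' y y' hik hxy hxy'
    obtain ⟨g, hg, h1, _⟩ := main (i' - i) 0
      (Function.update (Function.update 0 k' (y' - y)) i' (x' - x), 0)
    refine ⟨g, hg, ?_, ?_⟩
    · rw [h1]
      simp only [add_sub_cancel, Function.update_self]
    · rw [h1]
      have e1 : k + (i' - i) = k' := by
        have : k' = i' - (i - k) := by rw [hik]; abel
        rw [this]
        abel
      simp only [e1]
      by_cases hk : k' = i'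
      · have hik' : i = k := by
          rw [hk, sub_self] at hik
          exact sub_eq_zero.1 hik
        have h2 := hxy hik'
        have h3 := hxy' hk.symm
        rw [hk, Function.update_self]
        rw [two_four x x' y y' h2 h3]
      · rw [Function.update_of_ne hk, Function.update_self, add_sub_cancel]
  -- pairs in the block
  have right : ∀ (a b a' b' : Bl r q), a - b = a' - b' → ∃ g ∈ Γ, g (.inr a) = .inr a' ∧
        g (.inr b) = .inr b' := by
    intro a b a' b' hab
    obtain ⟨g, hg, _, h2⟩ := main 0 (a'.2 - a.2) (0, a'.1 - a.1)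
    refine ⟨g, hg, ?_, ?_⟩
    · rw [h2]
      simp only [add_sub_cancel]
    · rw [h2]
      have e1 : b.1 + (a'.1 - a.1) = b'.1 := by
        have := congrArg Prod.fst hab
        simp only [Prod.fst_sub] at this
        have h3 : b'.1 = a'.1 - (a.1 - b.1) := by rw [this]; abel
        rw [h3]
        abel
      have e2 : b.2 + (a'.2 - a.2) = b'.2 := by
        have := congrArg Prod.snd hab
        simp only [Prod.snd_sub] at this
        have h3 : b'.2 = a'.2 - (a.2 - b.2) := by rw [this]; abel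
        rw [h3]
        abel
      simp only [e1, e2]
  -- pairs between the parts
  have mid : ∀ (a a' : ZMod K × ZMod 2) (b b' : Bl r q), ∃ g ∈ Γ, g (.inl a) = .inl a' ∧
        g (.inr b) = .inr b' := by
    intro a a' b b'
    obtain ⟨g, hg, h1, h2⟩ := main (a'.1 - a.1) (b'.2 - b.2) (fun _ => a'.2 - a.2, b'.1 - b.1)
    refine ⟨g, hg, ?_, ?_⟩
    · rw [h1]
      simp only [add_sub_cancel]
    · rw [h2]
      simp only [add_sub_cancel]
  have f1 := form_of_orb h
  have f2 := form_of_orb h'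
  rcases j with b | d | d
  · cases b
    · obtain ⟨i, x, y, hxy, rfl, rfl⟩ := f1
      obtain ⟨i', x', y', hxy', rfl, rfl⟩ := f2
      obtain ⟨g, hg, h1, h2⟩ := left i i' i i' x x' y y' (by rw [sub_self, sub_self])
        (fun _ => hxy) (fun _ => hxy')
      exact ⟨g, hg, Or.inl ⟨h1, h2⟩⟩
    · rcases f1 with ⟨a, b, rfl, rfl⟩ | ⟨a, b, rfl, rfl⟩
      · rcases f2 with ⟨a', b', rfl, rfl⟩ | ⟨a', b', rfl, rfl⟩
        · obtain ⟨g, hg, h1, h2⟩ := mid a a' b b'
          exact ⟨g, hg, Or.inl ⟨h1, h2⟩⟩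
        · obtain ⟨g, hg, h1, h2⟩ := mid a a' b b'
          exact ⟨g, hg, Or.inr ⟨h1, h2⟩⟩
      · rcases f2 with ⟨a', b', rfl, rfl⟩ | ⟨a', b', rfl, rfl⟩
        · obtain ⟨g, hg, h1, h2⟩ := mid a a' b b'
          exact ⟨g, hg, Or.inr ⟨h2, h1⟩⟩
        · obtain ⟨g, hg, h1, h2⟩ := mid a a' b b'
          exact ⟨g, hg, Or.inl ⟨h2, h1⟩⟩
  · obtain ⟨i, k, x, y, hik, rfl, rfl, hd⟩ := f1
    obtain ⟨i', k', x', y', hik', rfl, rfl, hd'⟩ := f2
    rcases cls_inj hd hd' with h1 | h1
    · obtain ⟨g, hg, h2, h3⟩ := left i i' k k' x x' y y' h1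
        (fun h => absurd h hik) (fun h => absurd h hik')
      exact ⟨g, hg, Or.inl ⟨h2, h3⟩⟩
    · obtain ⟨g, hg, h2, h3⟩ := left i k' k i' x y' y x' (by rw [h1, neg_sub])
        (fun h => absurd h hik) (fun h => absurd h.symm hik')
      exact ⟨g, hg, Or.inr ⟨h2, h3⟩⟩
  · obtain ⟨a, b, rfl, rfl, hd⟩ := f1
    obtain ⟨a', b', rfl, rfl, hd'⟩ := f2
    rcases cls_inj hd hd' with h1 | h1
    · obtain ⟨g, hg, h2, h3⟩ := right a b a' b' h1
      exact ⟨g, hg, Or.inl ⟨h2, h3⟩⟩
    · obtain ⟨g, hg, h2, h3⟩ := right a b b' a' (by rw [h1, neg_sub])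
      exact ⟨g, hg, Or.inr ⟨h2, h3⟩⟩

/-- the graph of a configuration -/
abbrev Gt (χ : Jt K r q → Bool) : SimpleGraph (Vt K r q) := GR orb orb_symm orb_self χ

theorem relation (hco : Nat.Coprime K q) {n m : ℕ} {Q : SimpleGraph (Fin n) → Prop}
    (hQ : GP n m Q) (hV : Fintype.card (Vt K r q) = n) (hm : m < n.choose 2) :
    ∑ χ : Jt K r q → Bool, sgn χ * bit (PV Q (Vt K r q) (Gt χ)) = 0 := by
  have : Fact (Nat.Prime 2) := ⟨Nat.prime_two⟩
  refine rel_orb hQ hV 2 aP (cP K r q) aP_comm aP_sq ?_ orb orb_symm orb_self orb_ne_none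
    orb_aP orb_cP orb_exists (orb_trans hco) hm
  intro i
  rw [cP_conj]
  exact Subgroup.subset_closure ⟨_, rfl⟩

end Run7.h412.MN
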