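import Pool.Agent.Run7.h412.MN.Eval

set_option autoImplicit false
set_option linter.unusedSectionVars false

/-!
# The signed sum is 1
-/

namespace Run7.h412.MN

open Finset
open Pool.Agent.H119R2.Kp (GP PV)
open Pool.Agent.TH669.KP (sgn bit GR GR_adj sgn_update bit_pos bit_neg bit_congr)
open Pool.Agent.TH669.KC (Cl cls cls_zero cls_of_ne cls_ne_none cls_neg cls_inj cls_surj)

variable {K r q : ℕ} [NeZero K] [NeZero q]

theorem PV_Mat {n k : ℕ} (hV : Fintype.card (Vt K r q) = n) (G : SimpleGraph (Vt K r q)) :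
    PV (Mat k : SimpleGraph (Fin n) → Prop) (Vt K r q) G ↔ Mat k G := by
  constructor
  · rintro ⟨e, he⟩
    exact Mat.of_map e he
  · intro h
    exact ⟨Fintype.equivFinOfCardEq hV, h.map _⟩

open Classical in
/-- the coordinate which is irrelevant -/
noncomputable def tog (d0 : Cl (Bl r q)) (χ : Jt K r q → Bool) : Jt K r q :=
  if χ (.inl true) = true then (if 2 * K ≤ 2 ^ r * q then .inl false else .inr (.inr d0))
  else if ∃ d, χ (.inr (.inl d)) = true then .inl false else .inr (.inr d0)

theorem tog_or (d0 : Cl (Bl r q)) (χ : Jt K r q → Bool) :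
    tog d0 χ = .inl false ∨ tog d0 χ = .inr (.inr d0) := by
  unfold tog
  split_ifs <;> simp

/-- the involution -/
noncomputable def flp (d0 : Cl (Bl r q)) (χ : Jt K r q → Bool) : Jt K r q → Bool :=
  Function.update χ (tog d0 χ) (!χ (tog d0 χ))

theorem flp_other (d0 : Cl (Bl r q)) (χ : Jt K r q → Bool) (j : Jt K r q)
    (h1 : j ≠ .inl false) (h2 : j ≠ .inr (.inr d0)) : flp d0 χ j = χ j := by
  unfold flp
  rw [Function.update_of_ne]
  rintro rfl
  rcases tog_or d0 χ with h | h
  · exact h1 h
  · exact h2 h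

theorem tog_flp (d0 : Cl (Bl r q)) (χ : Jt K r q → Bool) : tog d0 (flp d0 χ) = tog d0 χ := by
  have e1 : flp d0 χ (.inl true) = χ (.inl true) := flp_other _ _ _ (by simp) (by simp)
  have e2 : ∀ d, flp d0 χ (.inr (.inl d)) = χ (.inr (.inl d)) :=
    fun d => flp_other _ _ _ (by simp) (by simp)
  unfold tog
  simp only [e1, e2]

theorem flp_flp (d0 : Cl (Bl r q)) (χ : Jt K r q → Bool) : flp d0 (flp d0 χ) = χ := by
  have h : flp d0 (flp d0 χ) = Function.update (flp d0 χ) (tog d0 χ) (!(flp d0 χ) (tog d0 χ)) := by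
    conv_lhs => rw [flp, tog_flp]
  rw [h]
  unfold flp
  rw [Function.update_self, Function.update_idem, Bool.not_not, Function.update_eq_self]

/-- only the two special coordinates -/
def Spec (d0 : Cl (Bl r q)) (χ : Jt K r q → Bool) : Prop :=
  ∀ j, j ≠ .inl false → j ≠ .inr (.inr d0) → χ j = false

theorem spec_flp (d0 : Cl (Bl r q)) (χ : Jt K r q → Bool) : Spec d0 (flp d0 χ) ↔ Spec d0 χ := by
  constructor
  · intro h j h1 h2
    rw [← flp_other d0 χ j h1 h2]
    exact h j h1 h2
  · intro h j h1 h2
    rw [flp_other d0 χ j h1 h2]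
    exact h j h1 h2

theorem flp_mat1 (hq : q.Prime) (hq2 : q ≠ 2) {d0 : Cl (Bl r q)} {y : ZMod q}
    (hd0 : cls ((0 : Fin r → ZMod 2), y) = some d0) {χ : Jt K r q → Bool} (hχ : ¬ Spec d0 χ)
    {k : ℕ} (h : Mat k (Gt χ)) : Mat k (Gt (flp d0 χ)) := by
  have hag : ∀ j, j ≠ tog d0 χ → flp d0 χ j = χ j := by
    intro j hj
    unfold flp
    rw [Function.update_of_ne hj]
  by_cases h1 : χ (.inl true) = true
  · have h2 : flp d0 χ (.inl true) = true := by
      rw [flp_other _ _ _ (by simp) (by simp)]
      exact h1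
    by_cases hc : 2 * K ≤ 2 ^ r * q
    · have ht : tog d0 χ = .inl false := by
        unfold tog
        rw [if_pos h1, if_pos hc]
      rw [ht] at hag
      exact join_left h2 hag hc h
    · have ht : tog d0 χ = .inr (.inr d0) := by
        unfold tog
        rw [if_pos h1, if_neg hc]
      rw [ht] at hag
      exact join_right h2 d0 hag (by omega) h
  · have h0 : χ (.inl true) = false := by
      simpa using h1
    by_cases hT : ∃ d, χ (.inr (.inl d)) = true
    · have ht : tog d0 χ = .inl false := by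
        unfold tog
        rw [if_neg h1, if_pos hT]
      rw [ht] at hag
      obtain ⟨d, hd⟩ := hT
      exact blow h0 hag hd h
    · have ht : tog d0 χ = .inr (.inr d0) := by
        unfold tog
        rw [if_neg h1, if_neg hT]
      rw [ht] at hag
      -- some further class of the block is present
      obtain ⟨d, hd, hdd⟩ : ∃ d, χ (.inr (.inr d)) = true ∧ d ≠ d0 := by
        by_contra hcon
        push Not at hcon
        apply hχ
        intro j hj1 hj2
        rcases j with b | d | d
        · cases b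
          · exact absurd rfl hj1
          · exact h0
        · by_contra h3
          exact hT ⟨d, by simpa using h3⟩
        · by_contra h3
          refine hj2 ?_
          rw [hcon d (by simpa using h3)]
      by_cases he : ∃ d, χ (.inr (.inr d)) = true ∧ ∃ z : Bl r q, cls z = some d ∧ z.1 ≠ 0
      · obtain ⟨d', hd', z, hz, hz1⟩ := he
        refine block_even h0 d0 hag hd' ?_ hz hz1 h
        rintro rfl
        rcases cls_inj hz hd0 with h2 | h2
        · exact hz1 (congrArg Prod.fst h2)
        · have h3 := congrArg Prod.fst h2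
          simp only [Prod.fst_neg, neg_zero] at h3
          exact hz1 h3
      · push Not at he
        exact block_odd hq hq2 h0 d0 hag he hd hdd h

theorem flp_mat (hq : q.Prime) (hq2 : q ≠ 2) {d0 : Cl (Bl r q)} {y : ZMod q}
    (hd0 : cls ((0 : Fin r → ZMod 2), y) = some d0) {χ : Jt K r q → Bool} (hχ : ¬ Spec d0 χ)
    {k : ℕ} : Mat k (Gt (flp d0 χ)) ↔ Mat k (Gt χ) := by
  refine ⟨fun h => ?_, flp_mat1 hq hq2 hd0 hχ⟩
  have h1 := flp_mat1 hq hq2 hd0 (fun h2 => hχ ((spec_flp d0 χ).1 h2)) h
  rwa [flp_flp] at h1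

theorem sgn_ne_zero {X : Type} [Fintype X] (χ : X → Bool) : sgn χ ≠ 0 := by
  unfold sgn
  rw [Finset.prod_ne_zero_iff]
  intro x _
  split_ifs <;> norm_num

/-- **The core.** -/
theorem no_GP (hco : Nat.Coprime K q) (hq : q.Prime) (hq2 : q ≠ 2) {n k : ℕ}
    (hn : n = 2 * K + 2 ^ r * q) (h1 : K < k) (h2 : 2 ^ r * ((q - 1) / 2) < k)
    (h3 : k ≤ K + 2 ^ r * ((q - 1) / 2)) :
    ¬ GP n (n.choose 2 - 1) (Mat k : SimpleGraph (Fin n) → Prop) := by
  classical
  intro hP
  have hodd : q % 2 = 1 := hq.eq_two_or_odd.resolve_left hq2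
  have hV : Fintype.card (Vt K r q) = n := by rw [card_all, hn]
  have hK : 0 < K := Nat.pos_of_ne_zero (NeZero.ne K)
  have hq3 : 3 ≤ q := by
    have := hq.two_le
    omega
  have hn2 : 2 ≤ n := by omega
  have hrel := relation hco hP hV (by
    have := Nat.choose_pos hn2
    omega)
  have : Fact (1 < q) := ⟨hq.one_lt⟩
  have hy : (1 : ZMod q) ≠ 0 := one_ne_zero
  have hz0 : (((0 : Fin r → ZMod 2), (1 : ZMod q)) : Bl r q) ≠ 0 := by
    intro h
    exact hy (congrArg Prod.snd h)
  obtain ⟨d0, hd0⟩ : ∃ d0, cls (((0 : Fin r → ZMod 2), (1 : ZMod q)) : Bl r q) = some d0 :=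
    ⟨_, cls_of_ne hz0⟩
  set f : (Jt K r q → Bool) → ℤ := fun χ => sgn χ * bit (Mat k (Gt χ)) with hf
  have hrel' : ∑ χ : Jt K r q → Bool, f χ = 0 := by
    rw [← hrel]
    refine Finset.sum_congr rfl fun χ _ => ?_
    rw [hf]
    simp only
    rw [bit_congr (PV_Mat hV (Gt χ))]
  rw [← Finset.sum_filter_add_sum_filter_not univ (fun χ => Spec d0 χ)] at hrel'
  have hzero : ∑ χ ∈ univ.filter (fun χ : Jt K r q → Bool => ¬ Spec d0 χ), f χ = 0 := by
    refine Finset.sum_involution (fun χ _ => flp d0 χ) ?_ ?_ ?_ ?_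
    · intro χ hχ
      rw [mem_filter] at hχ
      rw [hf]
      simp only
      rw [bit_congr (flp_mat hq hq2 hd0 hχ.2 (k := k))]
      unfold flp
      rw [sgn_update]
      ring
    · intro χ _ _ h
      have h4 := congrFun h (tog d0 χ)
      unfold flp at h4
      rw [Function.update_self] at h4
      cases h5 : χ (tog d0 χ) <;> simp [h5] at h4
    · intro χ hχ
      rw [mem_filter] at hχ ⊢
      exact ⟨mem_univ _, fun h => hχ.2 ((spec_flp d0 χ).1 h)⟩
    · intro χ _
      exact flp_flp d0 χ
  rw [hzero, add_zero] at hrel'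
  let χ1 : Jt K r q → Bool := fun j => decide (j = .inl false ∨ j = .inr (.inr d0))
  have hχ1 : Spec d0 χ1 := by
    intro j hj1 hj2
    simp [χ1, hj1, hj2]
  have hone : ∑ χ ∈ univ.filter (fun χ : Jt K r q → Bool => Spec d0 χ), f χ = f χ1 := by
    refine Finset.sum_eq_single χ1 ?_ ?_
    · intro χ hχ hne
      rw [mem_filter] at hχ
      have hsp := hχ.2
      rw [hf]
      simp only
      rw [bit_neg, mul_zero]
      by_cases h4 : χ (.inr (.inr d0)) = true
      · have h5 : χ (.inl false) = false := by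
          by_contra h5
          apply hne
          funext j
          by_cases hj1 : j = .inl false
          · subst hj1
            simpa [χ1] using h5
          · by_cases hj2 : j = .inr (.inr d0)
            · subst hj2
              simpa [χ1] using h4
            · rw [hsp j hj1 hj2, hχ1 j hj1 hj2]
        refine special_right hd0 ?_ h2 hodd
        intro j hj
        by_cases hj1 : j = .inl false
        · rw [hj1]
          exact h5
        · exact hsp j hj1 hj
      · refine special_left ?_ h1
        intro j hj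
        by_cases hj2 : j = .inr (.inr d0)
        · rw [hj2]
          simpa using h4
        · exact hsp j hj hj2
    · intro h
      exact absurd (mem_filter.2 ⟨mem_univ _, hχ1⟩) h
  rw [hone, hf] at hrel'
  simp only at hrel'
  rw [bit_pos (special_both hq hy hd0 (by simp [χ1]) (by simp [χ1]) h3), mul_one] at hrel'
  exact sgn_ne_zero _ hrel'

end Run7.h412.MN
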